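import Mathlib
import Pool.Agent.H417R3.HB.DedQ

/-!
# Quotients of Dedekind zeta functions at zeros of small order: linear groups in characteristic two

`Pool.Agent.H541R3.ART.ArtinData G s₀` is a family of functions with the formal properties of the
Artin L-functions of a Galois extension `E/K` with group `G` near a point `s₀ ≠ 1`: functions
`L χ` for the irreducible characters `χ` of `G`, meromorphic and not identically zero near `s₀`
(Brauer), and `Lin H ψ` for the linear characters `ψ` of the subgroups `H`, without pole at `s₀`
(Artin reciprocity and Hecke), such that `Lin H ψ` is the product of the `L χ ^ ⟨χ|_H, ψ⟩`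
(induction). In particular `Lin H 1` stands for the Dedekind zeta function of the fixed field of
`H`.
-/

set_option autoImplicit false

open Pool.Agent.H541R3.ART Pool.Agent.H417R3.HB Matrix

/-- Let `E/K` be a Galois extension whose group `G` is a quotient of `GL_n(F_q)`, `q` a power of
two, `n = a + b` with `a, b ≥ 1` coprime, and let `ζ_E` have order
`r < (q ^ a - 1) (q ^ b - 1) / (q - 1)` at `s₀`. Then the order at `s₀` of `ζ_F` is at most the
order of `ζ_L`, for all intermediate fields `F = E ^ M` and `L = E ^ H` with `F ⊆ L`; more generally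
for the L-functions of a linear character `ρ` of `M` over `F` and of `ρ|_H` over `L`. -/
theorem Pool.Agent.Results.MP_9fc8a5_nt.CharTwoLinear.result (k : Type) [Field k] [Finite k]
    [CharP k 2] (a b : ℕ) (ha : 0 < a) (hb : 0 < b) (hab : Nat.Coprime a b)
    (G : Type) [Group G] [Finite G] (f : GL (Fin (a + b)) k →* G) (hf : Function.Surjective f)
    (s₀ : ℂ) (A : ArtinData G s₀) (r : ℕ)
    (hr : meromorphicOrderAt (A.Lin ⊥ 1) s₀ = (r : WithTop ℤ))
    (hlt : r * (Nat.card k - 1) < (Nat.card k ^ a - 1) * (Nat.card k ^ b - 1))
    (H M : Subgroup G) (hHM : H ≤ M) (ρ : M →* ℂˣ) :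
    meromorphicOrderAt (A.Lin M ρ) s₀
      ≤ meromorphicOrderAt (A.Lin H (ρ.comp (Subgroup.inclusion hHM))) s₀ :=
  ded_gl ha hb hab f hf A hr hlt H M hHM ρ
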