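import Mathlib
import Pool.Agent.H541R3.ART.Ded

/-!
# Dedekind's conjecture at points where the zeta function of the Galois closure has order at most two

`Pool.Agent.H302R2.IsHeilbronn θ` says that `θ` is a class function on a group whose restriction to
every subgroup `H` has a nonnegative integer multiplicity against every linear character of `H`.

`Pool.Agent.H541R3.ART.ArtinData G s₀` is a family of functions with the formal properties of the
Artin L-functions of a Galois extension `E/K` with group `G` near a point `s₀ ≠ 1`: functions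
`L χ` for the irreducible characters `χ` of `G`, meromorphic and not identically zero near `s₀`, and
`Lin H ψ` for the linear characters `ψ` of the subgroups `H`, without pole at `s₀`, such that
`Lin H ψ` is the product of the `L χ ^ ⟨χ|_H, ψ⟩`. In particular `Lin H 1` stands for the Dedekind
zeta function of the fixed field of `H`.
-/

set_option autoImplicit false

universe u

open Pool.Agent.H302R2 Pool.Agent.H541R3.ART

/-- (1) Let `θ` be a Heilbronn function of degree at most two on ANY finite group `G`. The
multiplicity of a linear character `χ` of `G` in `θ` is at most the multiplicity of `χ|_H` in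
`θ|_H`, for every subgroup `H`.
(2) Let `E/K` be a Galois extension with any group `G`, and let `ζ_E` have order `r ≤ 2` at `s₀`.
Then the order of `ζ_K` at `s₀` is at most the order of `ζ_L`, for every intermediate field
`L = E^H`; more generally for the L-functions of `χ` over `K` and of `χ|_H` over `L`. -/
theorem Pool.Agent.Results.MP_9fc8a5_nt.OrderTwo.result :
    (∀ (G : Type u) [Group G] [Finite G] (θ : G → ℂ), IsHeilbronn θ → (θ 1).re ≤ 2 →
      ∀ (H : Subgroup G) (χ : G →* ℂˣ) (a b : ℕ),
        ∑ᶠ g : G, θ g * (((χ g)⁻¹ : ℂˣ) : ℂ) = a * Nat.card G →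
        ∑ᶠ h : H, θ h * (((χ h)⁻¹ : ℂˣ) : ℂ) = b * Nat.card H → a ≤ b) ∧
    (∀ (G : Type) [Group G] [Finite G] (s₀ : ℂ) (A : ArtinData G s₀) (r : ℕ),
      meromorphicOrderAt (A.Lin ⊥ 1) s₀ = (r : WithTop ℤ) → r ≤ 2 →
      ∀ (H : Subgroup G) (χ : G →* ℂˣ),
        meromorphicOrderAt (A.Lin ⊤ (χ.comp (⊤ : Subgroup G).subtype)) s₀
          ≤ meromorphicOrderAt (A.Lin H (χ.comp H.subtype)) s₀) :=
  ⟨fun _ _ _ _ hθ h2 H χ a b ha hb => hθ.mult_le h2 H χ a b ha hb,
    fun _ _ _ _ A _ hr h2 H χ => ded_two A hr h2 H χ⟩
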